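import Pool.Agent.H59.L.S8.W7.FH.Un
import Pool.Agent.H59.L.S8.W7.FH.Tr

/-!
A bound of Gruenert type for Fermat's equation over number fields.
-/

set_option autoImplicit false

namespace Pool.Agent.W7.FH

open NumberField IsDedekindDomain Height

variable {K : Type} [Field K] [NumberField K]

/-- `p` divides `(a + b + c) / (c + a)` in the unit case -/
lemma sum_le_of_units {p : ℕ} (hp : p.Prime) (hd : ¬ (p : ℤ) ∣ discr K) {a b c : K}
    (h : a ^ p + b ^ p + c ^ p = 0) (hca : c + a ≠ 0)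
    (hv : ∀ v : FinitePlace K, v (c + a) = mx v a b c) (v : FinitePlace K) :
    v (a + b + c) ≤ v (p : K) * mx v a b c := by
  have hint : ∀ x : K, (∀ w : FinitePlace K, w x ≤ mx w a b c) → IsIntegral ℤ (x / (c + a)) := by
    intro x hx
    apply isIntegral_of_le
    intro w
    rw [map_div₀, hv w]
    have hpos : 0 < mx w a b c := by rw [← hv w]; exact FinitePlace.pos_iff.mpr hca
    rw [div_le_one hpos]
    exact hx w
  obtain ⟨A, hA⟩ : ∃ A : 𝓞 K, algebraMap (𝓞 K) K A = a / (c + a) :=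
    ⟨⟨_, hint a fun w => (le_max_left _ _).trans (le_max_left _ _)⟩, rfl⟩
  obtain ⟨B, hB⟩ : ∃ A : 𝓞 K, algebraMap (𝓞 K) K A = b / (c + a) :=
    ⟨⟨_, hint b fun w => (le_max_right _ _).trans (le_max_left _ _)⟩, rfl⟩
  obtain ⟨C, hC⟩ : ∃ A : 𝓞 K, algebraMap (𝓞 K) K A = c / (c + a) :=
    ⟨⟨_, hint c fun w => le_max_right _ _⟩, rfl⟩
  have hsum : A ^ p + B ^ p + C ^ p = 0 := by
    apply FaithfulSMul.algebraMap_injective (𝓞 K) K
    simp only [map_add, map_pow, map_zero]
    rw [hA, hB, hC, div_pow, div_pow, div_pow, ← add_div, ← add_div, h, zero_div]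
  have hdvd : (p : 𝓞 K) ∣ (A + B + C) ^ p := by
    obtain ⟨r, hr⟩ := exists_add_pow_prime_eq hp (A + B) C
    obtain ⟨t, ht⟩ := exists_add_pow_prime_eq hp A B
    rw [hr, ht]
    have : A ^ p + B ^ p + ↑p * A * B * t + C ^ p + ↑p * (A + B) * C * r =
        (A ^ p + B ^ p + C ^ p) + p * (A * B * t + (A + B) * C * r) := by ring
    rw [this, hsum, zero_add]
    exact dvd_mul_right _ _
  obtain ⟨t, ht⟩ := dvd_of_dvd_pow hp hd hdvd
  have h1 : a + b + c = (p : K) * (t : K) * (c + a) := by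
    have h2 : algebraMap (𝓞 K) K (A + B + C) = (p : K) * algebraMap (𝓞 K) K t := by
      rw [ht, map_mul, map_natCast]
    simp only [map_add] at h2
    rw [hA, hB, hC, ← add_div, ← add_div, div_eq_iff hca] at h2
    exact h2
  rw [h1, map_mul, map_mul, hv v, mul_assoc]
  have h3 : v (t : K) ≤ 1 := integer_le_one v t
  have h4 : 0 ≤ mx v a b c := by rw [← hv v]; exact apply_nonneg _ _
  have h5 : 0 ≤ v (p : K) := apply_nonneg _ _
  calc v (p : K) * (v (t : K) * mx v a b c) ≤ v (p : K) * (1 * mx v a b c) := by gcongr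
    _ = _ := by rw [one_mul]

/-- height inequality from the product formula -/
theorem height_ge_sum {a b c : K} (ha : a ≠ 0) (hb : b ≠ 0) (hc : c ≠ 0) (hs : a + b + c ≠ 0)
    {p : ℕ} (hp : 0 < p) (h : ∀ v : FinitePlace K, v (a + b + c) ≤ v (p : K) * mx v a b c) :
    ((p : ℝ) / 3) ^ Module.finrank ℚ K ≤ mulHeight ![a, b, c] := by
  classical
  have hp0 : (p : K) ≠ 0 := by exact_mod_cast hp.ne'
  have hx : ![a, b, c] ≠ 0 := fun h0 => ha (congrFun h0 0)
  have hall : ∀ i : Fin 3, ![a, b, c] i ≠ 0 := by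
    intro i
    fin_cases i
    · exact ha
    · exact hb
    · exact hc
  have h1 := NumberField.mulHeight_eq (K := K) hx
  have hfM : (fun v : FinitePlace K => ⨆ i : Fin 3, v (![a, b, c] i)).HasFiniteMulSupport :=
    .iSup fun i => FinitePlace.hasFiniteMulSupport (hall i)
  have hfs : (fun v : FinitePlace K => v (a + b + c)).HasFiniteMulSupport :=
    FinitePlace.hasFiniteMulSupport hs
  have hfp : (fun v : FinitePlace K => v (p : K)).HasFiniteMulSupport :=
    FinitePlace.hasFiniteMulSupport hp0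
  set S : Finset (FinitePlace K) := hfM.toFinset ∪ hfs.toFinset ∪ hfp.toFinset with hS
  have e1 : ∏ᶠ v : FinitePlace K, ⨆ i : Fin 3, v (![a, b, c] i) =
      ∏ v ∈ S, ⨆ i : Fin 3, v (![a, b, c] i) := by
    apply finprod_eq_prod_of_mulSupport_subset
    intro w hw
    rw [hS, Finset.coe_union, Finset.coe_union]
    left; left
    exact Finset.mem_coe.mpr ((Set.Finite.mem_toFinset hfM).mpr hw)
  have e2 : ∏ᶠ v : FinitePlace K, v (a + b + c) = ∏ v ∈ S, v (a + b + c) := by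
    apply finprod_eq_prod_of_mulSupport_subset
    intro w hw
    rw [hS, Finset.coe_union, Finset.coe_union]
    left; right
    exact Finset.mem_coe.mpr ((Set.Finite.mem_toFinset hfs).mpr hw)
  have e3 : ∏ᶠ v : FinitePlace K, v (p : K) = ∏ v ∈ S, v (p : K) := by
    apply finprod_eq_prod_of_mulSupport_subset
    intro w hw
    rw [hS, Finset.coe_union, Finset.coe_union]
    right
    exact Finset.mem_coe.mpr ((Set.Finite.mem_toFinset hfp).mpr hw)
  have hpf := prod_abs_eq_one hs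
  rw [e2] at hpf
  have hnp : ∏ v ∈ S, v (p : K) = ((p : ℝ) ^ Module.finrank ℚ K)⁻¹ := by
    rw [← e3, FinitePlace.prod_eq_inv_abs_norm hp0]
    have h2 : (|Algebra.norm ℚ (p : K)| : ℚ) = (p : ℚ) ^ Module.finrank ℚ K := by
      have : (p : K) = algebraMap ℚ K p := by simp
      rw [this, Algebra.norm_algebraMap, abs_of_nonneg (by positivity)]
    rw [h2]
    push_cast
    rfl
  rw [h1, e1]
  have hfin : ∏ v ∈ S, v (a + b + c) ≤ ((p : ℝ) ^ Module.finrank ℚ K)⁻¹ *
      ∏ v ∈ S, ⨆ i : Fin 3, v (![a, b, c] i) := by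
    rw [← hnp, ← Finset.prod_mul_distrib]
    apply Finset.prod_le_prod (fun v _ => apply_nonneg _ _)
    intro v _
    rw [iSup_three v a b c]
    exact h v
  have hinf : ∏ w : InfinitePlace K, w (a + b + c) ^ w.mult ≤
      3 ^ Module.finrank ℚ K * ∏ w : InfinitePlace K, (⨆ i : Fin 3, w (![a, b, c] i)) ^ w.mult := by
    have h2 : (3 : ℝ) ^ Module.finrank ℚ K = ∏ w : InfinitePlace K, (3 : ℝ) ^ w.mult := by
      rw [Finset.prod_pow_eq_pow_sum, InfinitePlace.sum_mult_eq]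
    rw [h2, ← Finset.prod_mul_distrib]
    apply Finset.prod_le_prod (fun w _ => pow_nonneg (apply_nonneg _ _) _)
    intro w _
    rw [← mul_pow]
    apply pow_le_pow_left₀ (apply_nonneg _ _)
    rw [iSup_three w a b c]
    have h3 : w (a + b + c) ≤ w (a + b) + w c := w.1.add_le _ _
    have h3' : w (a + b) ≤ w a + w b := w.1.add_le a b
    have h4 : w a ≤ max (max (w a) (w b)) (w c) := le_max_of_le_left (le_max_left _ _)
    have h5 : w b ≤ max (max (w a) (w b)) (w c) := le_max_of_le_left (le_max_right _ _)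
    have h6 : w c ≤ max (max (w a) (w b)) (w c) := le_max_right _ _
    linarith
  have hP0 : 0 ≤ ∏ v ∈ S, v (a + b + c) := Finset.prod_nonneg fun v _ => apply_nonneg _ _
  have hI0 : 0 ≤ ∏ w : InfinitePlace K, w (a + b + c) ^ w.mult :=
    Finset.prod_nonneg fun w _ => pow_nonneg (apply_nonneg _ _) _
  have hpR : (0 : ℝ) < p := by exact_mod_cast hp
  have key : (1 : ℝ) ≤ (3 ^ Module.finrank ℚ K *
      ∏ w : InfinitePlace K, (⨆ i : Fin 3, w (![a, b, c] i)) ^ w.mult) *
      (((p : ℝ) ^ Module.finrank ℚ K)⁻¹ * ∏ v ∈ S, ⨆ i : Fin 3, v (![a, b, c] i)) := by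
    rw [← hpf]
    exact mul_le_mul hinf hfin hP0 (hI0.trans hinf)
  rw [div_pow, div_le_iff₀ (by positivity)]
  have h8 : (0 : ℝ) < (p : ℝ) ^ Module.finrank ℚ K := by positivity
  calc (p : ℝ) ^ Module.finrank ℚ K = (p : ℝ) ^ Module.finrank ℚ K * 1 := (mul_one _).symm
    _ ≤ (p : ℝ) ^ Module.finrank ℚ K * ((3 ^ Module.finrank ℚ K *
      ∏ w : InfinitePlace K, (⨆ i : Fin 3, w (![a, b, c] i)) ^ w.mult) *
      (((p : ℝ) ^ Module.finrank ℚ K)⁻¹ * ∏ v ∈ S, ⨆ i : Fin 3, v (![a, b, c] i))) :=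
        mul_le_mul_of_nonneg_left key h8.le
    _ = (p : ℝ) ^ Module.finrank ℚ K * ((p : ℝ) ^ Module.finrank ℚ K)⁻¹ * ((3 ^ Module.finrank ℚ K *
      ∏ w : InfinitePlace K, (⨆ i : Fin 3, w (![a, b, c] i)) ^ w.mult) *
      (∏ v ∈ S, ⨆ i : Fin 3, v (![a, b, c] i))) := by ring
    _ = _ := by rw [mul_inv_cancel₀ h8.ne']; ring

end Pool.Agent.W7.FH
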